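import Mathlib
import Pool.Agent.Results.MP_027f17_mp.DegenerateLaws

/-!
Conserved densities of the systems `u^b_t = u^b_xxx + c^b(u_x, u_x, u_x)` with constant cubic forms
`c^b`, abstract part. Adapted from the starting file `DegenerateLaws`.
-/

namespace Pool.Agent.Y594.CF.Gen

open Pool.Agent.Helper974.Diff Filter Topology
open Pool.Agent.Results.MP_027f17_mp

variable {N : ℕ} {V : Type} [CommRing V] [Algebra ℝ V] (A : DiffAlg N V)
  (c : Fin N → Fin N → Fin N → Fin N → ℝ)

/-- the cubic terms -/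
def cb (b : Fin N) : V := ∑ i, ∑ j, ∑ k, c b i j k • (A.u (i, 1) * A.u (j, 1) * A.u (k, 1))

/-- right-hand sides -/
def rh (b : Fin N) : V := A.u (b, 3) + cb A c b

/-- derivatives of the cubic terms -/
def qq (b i : Fin N) : V := A.pd (i, 1) (cb A c b)

lemma pd_cb_ne (b i : Fin N) (j : ℕ) (hj : j ≠ 1) : A.pd (i, j) (cb A c b) = 0 := by
  unfold cb
  simp only [map_sum, Derivation.map_smul, Derivation.leibniz, A.pd_u]
  apply Finset.sum_eq_zero
  intro a _
  apply Finset.sum_eq_zero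
  intro b _
  apply Finset.sum_eq_zero
  intro d _
  have h : ∀ e : Fin N, ((i, j) : Fin N × ℕ) ≠ (e, 1) := by
    intro e h
    exact hj (congrArg Prod.snd h)
  rw [if_neg (h _), if_neg (h _), if_neg (h _)]
  simp

lemma ordLT_cb (b : Fin N) : A.OrdLT 2 (cb A c b) := fun i j hj => pd_cb_ne A c b i j (by omega)

lemma ordLT_qq (b i : Fin N) : A.OrdLT 2 (qq A c b i) := DiffAlg.OrdLT.pd A (ordLT_cb A c b) _

lemma P_u' (i b : Fin N) (p : V) :
    A.P i p (A.u (b, 3)) = if i = b then - A.D (A.D (A.D p)) else 0 := by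
  rw [A.P_eq i p (A.OrdLT_u (b, 3))]
  simp only [Finset.sum_range_succ, Finset.sum_range_zero, A.pd_u]
  by_cases h : i = b
  · simp [h]; ring
  · simp [h]

lemma P_cb (b i : Fin N) (p : V) : A.P i p (cb A c b) = - A.D (p * qq A c b i) := by
  rw [A.P_eq i p (ordLT_cb A c b)]
  simp [Finset.sum_range_succ, pd_cb_ne, qq]

/-- equation satisfied by variational derivatives of conserved densities -/
lemma cosym' (ρ σ : V) (h : A.ev (rh A c) ρ = A.D σ) (i : Fin N) :
    A.ev (rh A c) (A.E i ρ) - A.D (A.D (A.D (A.E i ρ))) - A.D (∑ b, A.E b ρ * qq A c b i) = 0 := by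
  have h1 := A.E_ev (rh A c) i ρ
  rw [h, A.E_D] at h1
  have h2 : ∀ b, A.P i (A.E b ρ) (rh A c b) = (if i = b then - A.D (A.D (A.D (A.E b ρ))) else 0)
      + (- A.D (A.E b ρ * qq A c b i)) := by
    intro b
    unfold rh
    rw [A.P_add_right, P_u', P_cb]
  rw [Finset.sum_congr rfl (fun b _ => h2 b), Finset.sum_add_distrib, Finset.sum_ite_eq] at h1
  simp only [Finset.mem_univ, if_true, Finset.sum_neg_distrib] at h1
  rw [map_sum]
  linear_combination -h1

lemma iter_D_u' (j k : ℕ) (i : Fin N) : A.D^[j] (A.u (i, k)) = A.u (i, k + j) := by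
  induction j generalizing k with
  | zero => rfl
  | succ j ih => rw [Function.iterate_succ_apply, A.D_u, ih]; congr 2; omega

lemma pd_iter_rh (n : ℕ) (a b : Fin N) (j : ℕ) (hj : j ≤ n) :
    A.pd (a, n + 1) (A.D^[j] (rh A c b)) =
      (if a = b ∧ n = j + 2 then 1 else 0) + (if j = n then qq A c b a else 0) := by
  have hc : A.pd (a, n + 1) (A.D^[j] (cb A c b)) = if j = n then qq A c b a else 0 := by
    by_cases h : j = n
    · subst h
      rw [if_pos rfl, add_comm j 1, A.pd_top_iter_D (ordLT_cb A c b)]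
      rfl
    · rw [if_neg h]
      exact DiffAlg.OrdLT.iter_D A (ordLT_cb A c b) j a (n + 1) (by omega)
  have hu : ∀ b, A.pd (a, n + 1) (A.D^[j] (A.u (b, 3))) = if a = b ∧ n = j + 2 then 1 else 0 := by
    intro b
    rw [iter_D_u', A.pd_u]
    by_cases h : a = b ∧ n = j + 2
    · rw [if_pos h, if_pos]; rw [h.1, h.2]; congr 1; omega
    · rw [if_neg h, if_neg]
      intro h2
      apply h
      refine ⟨congrArg Prod.fst h2, ?_⟩
      have := congrArg Prod.snd h2
      simp at this
      omega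
  unfold rh
  rw [A.iter_D_add, map_add, hu, hc]

/-- `∂_{a,n+1}` of the time derivative of a function of order `≤ n` -/
lemma pd_ev' (n : ℕ) (hn : 2 ≤ n) (f : V) (hf : A.OrdLT (n + 1) f) (a : Fin N) :
    A.pd (a, n + 1) (A.ev (rh A c) f) =
      A.pd (a, n - 2) f + ∑ b, qq A c b a * A.pd (b, n) f := by
  unfold DiffAlg.ev
  rw [A.pd_der, hf a (n + 1) le_rfl, map_zero, zero_add, A.der_eq _ hf]
  have h1 : ∀ j ∈ Finset.range (n + 1), ∑ b : Fin N, A.pd (a, n + 1) (A.D^[j] (rh A c b)) *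
      A.pd (b, j) f = (if n = j + 2 then A.pd (a, j) f else 0)
        + (if j = n then ∑ b, qq A c b a * A.pd (b, n) f else 0) := by
    intro j hj
    have hj' : j ≤ n := by simpa [Nat.lt_succ_iff] using hj
    simp only [pd_iter_rh A c n a _ j hj', add_mul, Finset.sum_add_distrib, ite_mul, one_mul,
      zero_mul, ite_and]
    congr 1
    · simp
    · by_cases h : j = n
      · subst h; simp
      · simp [h]
  rw [Finset.sum_congr rfl h1, Finset.sum_add_distrib]
  congr 1
  · rw [Finset.sum_eq_single (n - 2)]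
    · rw [if_pos (by omega)]
    · intro b _ hb; rw [if_neg (by omega)]
    · intro h; simp at h
  · rw [Finset.sum_eq_single n]
    · rw [if_pos rfl]
    · intro b _ hb; rw [if_neg hb]
    · intro h; simp at h

lemma pd_ddd' (a : Fin N) (k : ℕ) (f : V) : A.pd (a, k + 3) (A.D (A.D (A.D f)))
    = A.D (A.D (A.D (A.pd (a, k + 3) f))) + 3 * A.D (A.D (A.pd (a, k + 2) f))
      + 3 * A.D (A.pd (a, k + 1) f) + A.pd (a, k) f := by
  simp only [A.pd_succ_D, map_add]
  ring

/-- no dependence on any variable -/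
lemma ordLT_zero_of_D' (f : V) (h : A.D f = 0) : A.OrdLT 0 f := by
  apply A.ordLT_of_D
  rw [h]
  intro i j _
  rw [map_zero]

lemma pdU (a i : Fin N) : A.pd (a, 1) (A.u (i, 1)) = if i = a then 1 else 0 := by
  rw [A.pd_u]
  by_cases h : i = a
  · simp [h]
  · rw [if_neg, if_neg h]
    intro h2
    exact h (congrArg Prod.fst h2).symm

variable {c}

lemma qq_eq (hc : ∀ b i j k, c b i j k = c b j i k ∧ c b i j k = c b i k j) (b a : Fin N) :
    qq A c b a = 3 * ∑ j, ∑ k, c b a j k • (A.u (j, 1) * A.u (k, 1)) := by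
  obtain ⟨S, hS⟩ : ∃ S, S = ∑ j, ∑ k, c b a j k • (A.u (j, 1) * A.u (k, 1)) := ⟨_, rfl⟩
  have e1 : ∑ i, ∑ j, ∑ k, c b i j k • ((A.u (i, 1) * A.u (j, 1)) * (if k = a then (1 : V) else 0))
      = S := by
    rw [hS]
    apply Finset.sum_congr rfl
    intro i _
    apply Finset.sum_congr rfl
    intro j _
    simp only [mul_ite, mul_one, mul_zero, smul_ite, smul_zero, Finset.sum_ite_eq',
      Finset.mem_univ, if_true]
    rw [(hc b i j a).2, (hc b i a j).1]
  have e2 : ∑ i, ∑ j, ∑ k, c b i j k • ((A.u (i, 1) * A.u (k, 1)) * (if j = a then (1 : V) else 0))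
      = S := by
    rw [hS]
    apply Finset.sum_congr rfl
    intro i _
    rw [Finset.sum_comm]
    apply Finset.sum_congr rfl
    intro k _
    simp only [mul_ite, mul_one, mul_zero, smul_ite, smul_zero, Finset.sum_ite_eq',
      Finset.mem_univ, if_true]
    rw [(hc b i a k).1]
  have e3 : ∑ i, ∑ j, ∑ k, c b i j k • ((A.u (j, 1) * A.u (k, 1)) * (if i = a then (1 : V) else 0))
      = S := by
    rw [hS, Finset.sum_comm]
    apply Finset.sum_congr rfl
    intro j _
    rw [Finset.sum_comm]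
    apply Finset.sum_congr rfl
    intro k _
    simp only [mul_ite, mul_one, mul_zero, smul_ite, smul_zero, Finset.sum_ite_eq',
      Finset.mem_univ, if_true]
  rw [← hS]
  have : qq A c b a = (∑ i, ∑ j, ∑ k, c b i j k • ((A.u (i, 1) * A.u (j, 1)) *
      (if k = a then (1 : V) else 0))) + (∑ i, ∑ j, ∑ k, c b i j k • ((A.u (i, 1) * A.u (k, 1)) *
      (if j = a then (1 : V) else 0))) + (∑ i, ∑ j, ∑ k, c b i j k • ((A.u (j, 1) * A.u (k, 1)) *
      (if i = a then (1 : V) else 0))) := by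
    simp only [← Finset.sum_add_distrib, ← smul_add]
    unfold qq cb
    simp only [map_sum, Derivation.map_smul, Derivation.leibniz, pdU, smul_eq_mul]
    refine Finset.sum_congr rfl fun i _ => Finset.sum_congr rfl fun j _ =>
      Finset.sum_congr rfl fun k _ => ?_
    congr 1
    ring
  rw [this, e1, e2, e3]
  ring

lemma pd_pd_qq (hc : ∀ b i j k, c b i j k = c b j i k ∧ c b i j k = c b i k j) (b a j k : Fin N) :
    A.pd (j, 1) (A.pd (k, 1) (qq A c b a)) = (6 * c b a j k) • (1 : V) := by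
  have h3 : ∀ b : Fin N × ℕ, A.pd b (3 : V) = 0 := by
    intro b
    have := (A.pd b).map_natCast 3
    simpa using this
  have h1 : A.pd (k, 1) (qq A c b a) = 6 * ∑ i, c b a i k • A.u (i, 1) := by
    rw [qq_eq A hc, Derivation.leibniz, h3, smul_zero, add_zero, smul_eq_mul]
    have e : A.pd (k, 1) (∑ j, ∑ m, c b a j m • (A.u (j, 1) * A.u (m, 1))) =
        (∑ i, c b a i k • A.u (i, 1)) + ∑ i, c b a i k • A.u (i, 1) := by
      simp only [map_sum, Derivation.map_smul, Derivation.leibniz, pdU, smul_eq_mul, mul_ite,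
        mul_one, mul_zero, smul_add, smul_ite, smul_zero, Finset.sum_add_distrib,
        Finset.sum_ite_eq', Finset.mem_univ, if_true]
      congr 1
      rw [Finset.sum_comm]
      simp only [Finset.sum_ite_eq', Finset.mem_univ, if_true]
      exact Finset.sum_congr rfl fun i _ => by rw [(hc b a k i).2]
    rw [e]
    ring
  have h6 : ∀ b : Fin N × ℕ, A.pd b (6 : V) = 0 := by
    intro b
    have := (A.pd b).map_natCast 6
    simpa using this
  rw [h1, Derivation.leibniz, h6, smul_zero, add_zero, smul_eq_mul]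
  simp only [map_sum, Derivation.map_smul, pdU, smul_ite, smul_zero, Finset.sum_ite_eq',
    Finset.mem_univ, if_true]
  rw [Algebra.smul_def, Algebra.smul_def, map_mul, mul_one, mul_one, map_ofNat]

/-- the second derivatives of a total derivative of a function of order 0 vanish -/
lemma quad_exact' (Q l : V) (hQ : A.OrdLT 2 Q) (h : Q = 3 * A.D l) (i k : Fin N) :
    A.pd (i, 1) (A.pd (k, 1) Q) = 0 := by
  have h3 : ∀ a : Fin N × ℕ, A.pd a (3 : V) = 0 := by
    intro a
    have := (A.pd a).map_natCast 3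
    simpa using this
  have hl : A.OrdLT 1 l := by
    apply A.ordLT_of_D
    intro i j hj
    have h0 : (3 : V) * A.pd (i, j) (A.D l) = 0 := by
      have := congrArg (A.pd (i, j)) h
      rw [Derivation.leibniz (A.pd (i, j)) 3, h3, hQ i j hj] at this
      simp only [smul_eq_mul, mul_zero, add_zero] at this
      exact this.symm
    exact DegenerateLaws.cancel 3 (by norm_num) (A.pd (i, j) (A.D l)) (by push_cast; exact h0)
  have hD : ∀ i k : Fin N, A.pd (i, 1) (A.pd (k, 1) (A.D l)) = 0 := by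
    intro i k
    rw [A.pd_succ_D k 0, hl k 1 le_rfl, map_zero, zero_add, A.pd_comm, hl i 1 le_rfl, map_zero]
  rw [h, Derivation.leibniz (A.pd (k, 1)) 3, h3, smul_zero, add_zero, smul_eq_mul,
      Derivation.leibniz (A.pd (i, 1)) 3, h3, smul_zero, add_zero, smul_eq_mul, hD, mul_zero]

/-- **Abstract form.** The Hessian of a conserved density is an invariant form of the cubic map. -/
theorem hessian_form (hc : ∀ b i j k, c b i j k = c b j i k ∧ c b i j k = c b i k j)
    (k : ℕ) (ρ σ : V) (hρ : A.OrdLT (k + 2) ρ)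
    (h : A.ev (rh A c) ρ = A.D σ) (i a j l : Fin N) :
    ∑ b, c b a j l • A.pd (i, k + 1) (A.pd (b, k + 1) ρ) =
      ∑ b, c b i j l • A.pd (a, k + 1) (A.pd (b, k + 1) ρ) := by
  obtain ⟨m, hm⟩ : ∃ m, 2 * (k + 1) = m + 2 := ⟨2 * k, by ring⟩
  have hf : ∀ i, A.OrdLT (m + 3) (A.E i ρ) := by
    intro i
    have := A.E_ordLT hρ i
    rw [hm] at this
    exact this
  have htop : ∀ i a, A.pd (a, m + 2) (A.E i ρ) = (-1) ^ (k + 1) * A.pd (a, k + 1) (A.pd (i, k + 1) ρ) := by
    intro i a
    rw [← hm]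
    exact A.pd_top_E hρ i a
  have hsym : ∀ i a, A.pd (a, m + 2) (A.E i ρ) = A.pd (i, m + 2) (A.E a ρ) := by
    intro i a
    rw [htop, htop, A.pd_comm]
  have hord0 : ∀ b i, A.OrdLT (m + 3) (A.E b ρ * qq A c b i) := fun b i =>
    DiffAlg.OrdLT.mul A (hf b) (DiffAlg.OrdLT.mono A (ordLT_qq A c b i) (by omega))
  have hord : ∀ i, A.OrdLT (m + 3) (∑ b, A.E b ρ * qq A c b i) := fun i =>
    DiffAlg.OrdLT.sum A _ fun b _ => hord0 b i
  have e1 : ∀ i a, A.D (A.pd (a, m + 2) (A.E i ρ)) = 0 := by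
    intro i a
    have h1 := congrArg (A.pd (a, m + 4)) (cosym' A c ρ σ h i)
    rw [map_sub, map_sub, map_zero, pd_ev' A c (m + 3) (by omega) _
      (DiffAlg.OrdLT.mono A (hf i) (by omega)),
      Finset.sum_eq_zero (fun b _ => by rw [hf i b (m + 3) le_rfl, mul_zero]),
      show m + 4 = (m + 1) + 3 by ring, pd_ddd', hf i a (m + 1 + 3) (by omega),
      hf i a (m + 1 + 2) (by omega), show m + 1 + 3 = (m + 3) + 1 by ring, A.pd_succ_D,
      hord i a (m + 3 + 1) (by omega), hord i a (m + 3) le_rfl] at h1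
    simp only [map_zero, mul_zero, add_zero, zero_add, sub_zero,
      show m + 3 - 2 = m + 1 by omega, show m + 1 + 1 = m + 2 by ring] at h1
    apply DegenerateLaws.cancel 3 (by norm_num)
    push_cast
    rw [← neg_eq_zero, ← h1]
    ring
  have e2 : ∀ i a, ∑ b, A.pd (b, m + 2) (A.E i ρ) * qq A c b a -
      ∑ b, A.pd (a, m + 2) (A.E b ρ) * qq A c b i = 3 * A.D (A.pd (a, m + 1) (A.E i ρ)) := by
    intro i a
    have h1 := congrArg (A.pd (a, m + 3)) (cosym' A c ρ σ h i)
    have h2 : A.pd (a, m + 2) (∑ b, A.E b ρ * qq A c b i) =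
        ∑ b, A.pd (a, m + 2) (A.E b ρ) * qq A c b i := by
      rw [map_sum]
      refine Finset.sum_congr rfl fun b _ => ?_
      rw [Derivation.leibniz, ordLT_qq A c b i a (m + 2) (by omega), smul_zero, zero_add,
        smul_eq_mul, mul_comm]
    rw [map_sub, map_sub, map_zero, pd_ev' A c (m + 2) (by omega) _ (hf i), pd_ddd',
      hf i a (m + 3) le_rfl, e1 i a, A.pd_succ_D, hord i a (m + 2 + 1) (by omega), h2] at h1
    simp only [map_zero, mul_zero, add_zero, zero_add,
      show m + 2 - 2 = m by omega] at h1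
    have h3 : ∑ b, A.pd (b, m + 2) (A.E i ρ) * qq A c b a =
        ∑ b, qq A c b a * A.pd (b, m + 2) (A.E i ρ) :=
      Finset.sum_congr rfl fun b _ => mul_comm _ _
    rw [h3]
    linear_combination h1
  have z : ∀ i a b, A.pd b (A.pd (a, m + 2) (A.E i ρ)) = 0 := fun i a b =>
    ordLT_zero_of_D' A _ (e1 i a) b.1 b.2 (Nat.zero_le _)
  have hQ : A.OrdLT 2 (∑ b, A.pd (b, m + 2) (A.E i ρ) * qq A c b a -
      ∑ b, A.pd (a, m + 2) (A.E b ρ) * qq A c b i) := by
    intro d e he
    rw [map_sub, map_sum, map_sum]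
    simp only [Derivation.leibniz, z, ordLT_qq A c _ _ d e he]
    simp
  have h4 := quad_exact' A _ _ hQ (e2 i a) j l
  rw [map_sub, map_sub, map_sum, map_sum, map_sum, map_sum] at h4
  simp only [Derivation.leibniz, z, smul_eq_mul, pd_pd_qq A hc,
    map_zero, map_add, mul_zero, zero_mul, add_zero] at h4
  have h5 : (6 : ℝ) • ((∑ b, c b a j l • A.pd (b, m + 2) (A.E i ρ)) -
      ∑ b, c b i j l • A.pd (a, m + 2) (A.E b ρ)) = 0 := by
    rw [← h4, smul_sub, Finset.smul_sum, Finset.smul_sum]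
    congr 1
    · refine Finset.sum_congr rfl fun b _ => ?_
      rw [smul_smul, mul_smul_comm, mul_one]
    · refine Finset.sum_congr rfl fun b _ => ?_
      rw [smul_smul, mul_smul_comm, mul_one]
  have h6 := (smul_eq_zero_iff_right (by norm_num : (6 : ℝ) ≠ 0)).1 h5
  have h7 := sub_eq_zero.1 h6
  have h8 : ∑ b, c b a j l • A.pd (b, m + 2) (A.E i ρ) =
      (-1) ^ (k + 1) * ∑ b, c b a j l • A.pd (i, k + 1) (A.pd (b, k + 1) ρ) := by
    rw [Finset.mul_sum]
    refine Finset.sum_congr rfl fun b _ => ?_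
    rw [htop, mul_smul_comm, A.pd_comm]
  have h9 : ∑ b, c b i j l • A.pd (a, m + 2) (A.E b ρ) =
      (-1) ^ (k + 1) * ∑ b, c b i j l • A.pd (a, k + 1) (A.pd (b, k + 1) ρ) := by
    rw [Finset.mul_sum]
    refine Finset.sum_congr rfl fun b _ => ?_
    rw [htop, mul_smul_comm]
  rw [h8, h9] at h7
  rcases neg_one_pow_eq_or V (k + 1) with h | h <;> rw [h] at h7
  · simpa using h7
  · simpa using h7

end Pool.Agent.Y594.CF.Gen
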