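import Mathlib
import Pool.Agent.Results.MP_027f17_mp.DegenerateLaws
import Pool.Agent.Y594.CF.Gen

/-!
The systems `u^b_t = u^b_xxx + c^b(u_x, u_x, u_x)` with constant coefficients: the Hessian of a
conservation law is an invariant form, and every invariant form gives a conservation law of order 1.
-/

namespace Pool.Agent.Y594.CF.GenLaw

open Pool.Agent.Helper974.Diff Filter Topology MvPolynomial
open Pool.Agent.Results.MP_027f17_mp.DegenerateLaws
open Pool.Agent.Y594.CF.Gen

variable {N : ℕ}

/-- constant tensor `β` -/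
noncomputable def constBeta (c : Fin N → Fin N → Fin N → Fin N → ℝ) :
    Fin N → Fin N → Fin N → Fin N → MvPolynomial (Fin N) ℝ :=
  fun i j k m => C (c i j k m)

variable {c : Fin N → Fin N → Fin N → Fin N → ℝ}

lemma curv_zero' (i j k l : Fin N) : curv (fun _ _ _ => 0) i j k l = 0 := by simp [curv]

lemma sigma_zero' : sigma (fun _ _ _ => 0) (constBeta c) = constBeta c := by
  funext i j k l
  simp [sigma, curv_zero']

/-- the identity (C5) for a constant tensor gives the conditions -/
lemma conditions' (hc : ∀ b i j k, c b i j k = c b j i k ∧ c b i j k = c b i k j)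
    (h5 : ∀ i x y z v w, ∑ s, (c i x s w * c s y z v - c i w v s * c s x y z
      + c i z y s * c s x v w - c i x v s * c s z y w) = 0) :
    Conditions (fun _ _ _ => 0) (constBeta c) := by
  refine ⟨?_, ?_, ?_, ?_, ?_⟩
  · intro m i j k l; simp [cov, curv_zero']
  · intro m i j k l
    rw [sigma_zero']
    simp [cov, constBeta]
  · intro i j k l
    rw [curv_zero', sigma_zero']
    unfold constBeta
    rw [(hc i j l k).2, sub_self]
  · intro i j k l
    rw [sigma_zero']
    unfold constBeta
    rw [(hc i j k l).1, (hc i k j l).2, (hc i k l j).1]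
  · intro i x y z v' w
    rw [sigma_zero']
    unfold constBeta
    rw [← C_0, ← h5 i x y z v' w, map_sum]
    refine Finset.sum_congr rfl fun s _ => ?_
    simp only [C_add, C_sub, C_mul]

lemma system_eq' (i : Fin N) : system (fun _ _ _ => 0) (constBeta c) i =
    X (i, 3) + ∑ j, ∑ k, ∑ m, C (c i j k m) * X (j, 1) * X (k, 1) * X (m, 1) := by
  simp [system, emb, constBeta]

lemma Phi_X (p : Jets N) (a : Fin N × ℕ) : Phi p (X a) = (germAlg p).u a := by
  simp [Phi]

lemma Phi_C (p : Jets N) (r : ℝ) : Phi p (C r) = algebraMap ℝ (VV p) r := by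
  rw [Phi, aeval_C]

lemma Phi_system' (p : Jets N) (i : Fin N) :
    Phi p (system (fun _ _ _ => 0) (constBeta c) i) = rh (germAlg p) c i := by
  rw [system_eq']
  unfold rh cb
  rw [map_add, Phi_X]
  congr 1
  simp only [map_sum, map_mul, Phi_X, Phi_C]
  refine Finset.sum_congr rfl fun j _ => Finset.sum_congr rfl fun k _ =>
    Finset.sum_congr rfl fun m _ => ?_
  rw [Algebra.smul_def]
  ring

/-- conservation laws as an identity in the differential algebra of germs -/
lemma conserved_iff (p : Jets N) (ρ τ : Jets N → ℝ) {m n : ℕ} (hρ : AnalyticNear p m ρ)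
    (hτ : AnalyticNear p n τ) :
    (∀ᶠ x in 𝓝 p, timeD (system (fun _ _ _ => 0) (constBeta c)) ρ x = totalD τ x) ↔
      (germAlg p).ev (rh (germAlg p) c) (mk p ρ ⟨_, hρ⟩) = (germAlg p).D (mk p τ ⟨_, hτ⟩) := by
  have e1 := der_coe p (fun a => (germAlg p).D^[a.2] (rh (germAlg p) c a.1))
    (fun a x => eval x ((Dx N)^[a.2] (system (fun _ _ _ => 0) (constBeta c) a.1))) (by
      intro a
      rw [← Phi_system', ← Phi_iter, Phi_eq]
      rfl) hρ
  have e2 := der_coe p (fun a => (germAlg p).u (a.1, a.2 + 1))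
    (fun a x => x (a.1, a.2 + 1)) (fun a => rfl) hτ
  constructor
  · intro heq
    apply Subtype.ext
    refine e1.trans (Eq.trans ?_ e2.symm)
    exact Germ.coe_eq.2 heq
  · intro h
    have h1 := congrArg Subtype.val h
    have h2 := e1.symm.trans (h1.trans e2)
    exact Germ.coe_eq.1 h2

/-- the value of a germ at the jet `p` -/
noncomputable def val (p : Jets N) : VV p →+* ℝ := Germ.valueRingHom.comp (VV p).subtype

lemma val_mk (p : Jets N) (f : Jets N → ℝ) (hf : ∃ n, AnalyticNear p n f) :
    val p (mk p f hf) = f p := rfl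

lemma val_smul (p : Jets N) (r : ℝ) (φ : VV p) : val p (r • φ) = r * val p φ := by
  rw [Algebra.smul_def, map_mul]
  rfl

lemma hessian_val (p : Jets N) (k : ℕ) (ρ : Jets N → ℝ) {n : ℕ} (hρ : AnalyticNear p n ρ)
    (i j : Fin N) : hessian k ρ p i j =
      val p ((germAlg p).pd (i, k) ((germAlg p).pd (j, k) (mk p ρ ⟨_, hρ⟩))) := rfl

theorem law_form (hc : ∀ b i j k, c b i j k = c b j i k ∧ c b i j k = c b i k j)
    (k : ℕ) (p : Jets N) (ρ : Jets N → ℝ)
    (h : Conserved (system (fun _ _ _ => 0) (constBeta c)) p (k + 1) ρ) :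
    (hessian (k + 1) ρ p).IsSymm ∧ ∀ i a j l,
      ∑ b, hessian (k + 1) ρ p i b * c b a j l = ∑ b, hessian (k + 1) ρ p a b * c b i j l := by
  obtain ⟨hρ, n, τ, hτ, heq⟩ := h
  have h1 := (conserved_iff p ρ τ hρ hτ).1 heq
  refine ⟨?_, fun i a j l => ?_⟩
  · ext i j
    rw [Matrix.transpose_apply, hessian_val p _ ρ hρ, hessian_val p _ ρ hρ, (germAlg p).pd_comm]
  · have h2 := hessian_form (germAlg p) hc k (mk p ρ ⟨_, hρ⟩) (mk p τ ⟨_, hτ⟩)
      (ordLT_mk p hρ) h1 i a j l
    have h3 := congrArg (val p) h2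
    rw [map_sum, map_sum] at h3
    simp only [val_smul] at h3
    simp only [hessian_val p _ ρ hρ]
    calc _ = _ := Finset.sum_congr rfl fun b _ => mul_comm _ _
      _ = _ := h3
      _ = _ := Finset.sum_congr rfl fun b _ => mul_comm _ _

end Pool.Agent.Y594.CF.GenLaw
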