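import Mathlib
import Pool.Agent.Results.MP_027f17_mp.DegenerateLaws
import Pool.Agent.Y594.CF.Gen
import Pool.Agent.Y594.CF.GenLaw

/-!
Every invariant form gives a conservation law of order 1.
-/

namespace Pool.Agent.Y594.CF.Conv

open Pool.Agent.Helper974.Diff Filter Topology MvPolynomial
open Pool.Agent.Results.MP_027f17_mp.DegenerateLaws
open Pool.Agent.Y594.CF.Gen Pool.Agent.Y594.CF.GenLaw

variable {N : ℕ}

/-- Euler's identity for a totally symmetric tensor of degree 4 -/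
lemma euler {V : Type} [CommRing V] [Algebra ℝ V] (Q : Fin N → Fin N → Fin N → Fin N → ℝ)
    (h1 : ∀ i j k l, Q i j k l = Q j i k l) (h2 : ∀ i j k l, Q i j k l = Q i k j l)
    (h3 : ∀ i j k l, Q i j k l = Q i j l k) (y z : Fin N → V) :
    ∑ i, y i * (∑ j, ∑ k, ∑ l, Q i j k l • (y j * y k * z l + y l * (y j * z k + y k * z j))) =
      3 * ∑ i, z i * ∑ j, ∑ k, ∑ l, Q i j k l • (y j * y k * y l) := by
  obtain ⟨S, hS⟩ : ∃ S, S = ∑ i, ∑ j, ∑ k, ∑ l, Q i j k l • (z i * y j * y k * y l) := ⟨_, rfl⟩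
  have e0 : ∑ i, z i * ∑ j, ∑ k, ∑ l, Q i j k l • (y j * y k * y l) = S := by
    rw [hS]
    simp only [Finset.mul_sum, mul_smul_comm]
    refine Finset.sum_congr rfl fun i _ => Finset.sum_congr rfl fun j _ =>
      Finset.sum_congr rfl fun k _ => Finset.sum_congr rfl fun l _ => ?_
    congr 1
    ring
  have t1 : ∑ i, ∑ j, ∑ k, ∑ l, Q i j k l • (y i * z j * y k * y l) = S := by
    rw [hS, Finset.sum_comm]
    refine Finset.sum_congr rfl fun i _ => Finset.sum_congr rfl fun j _ =>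
      Finset.sum_congr rfl fun k _ => Finset.sum_congr rfl fun l _ => ?_
    rw [h1 j i k l]
    congr 1
    ring
  have t2 : ∑ i, ∑ j, ∑ k, ∑ l, Q i j k l • (y i * y j * z k * y l) = S := by
    rw [← t1]
    refine Finset.sum_congr rfl fun i _ => ?_
    rw [Finset.sum_comm]
    refine Finset.sum_congr rfl fun j _ =>
      Finset.sum_congr rfl fun k _ => Finset.sum_congr rfl fun l _ => ?_
    rw [h2 i k j l]
    congr 1
    ring
  have t3 : ∑ i, ∑ j, ∑ k, ∑ l, Q i j k l • (y i * y j * y k * z l) = S := by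
    rw [← t2]
    refine Finset.sum_congr rfl fun i _ => Finset.sum_congr rfl fun j _ => ?_
    rw [Finset.sum_comm]
    refine Finset.sum_congr rfl fun k _ => Finset.sum_congr rfl fun l _ => ?_
    rw [h3 i j l k]
    congr 1
    ring
  rw [e0]
  have : ∑ i, y i * (∑ j, ∑ k, ∑ l, Q i j k l • (y j * y k * z l + y l * (y j * z k + y k * z j))) =
      (∑ i, ∑ j, ∑ k, ∑ l, Q i j k l • (y i * y j * y k * z l)) +
      ((∑ i, ∑ j, ∑ k, ∑ l, Q i j k l • (y i * y j * z k * y l)) +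
      ∑ i, ∑ j, ∑ k, ∑ l, Q i j k l • (y i * z j * y k * y l)) := by
    simp only [← Finset.sum_add_distrib, ← smul_add, Finset.mul_sum, mul_smul_comm]
    refine Finset.sum_congr rfl fun i _ => Finset.sum_congr rfl fun j _ =>
      Finset.sum_congr rfl fun k _ => Finset.sum_congr rfl fun l _ => ?_
    congr 1
    ring
  rw [this, t1, t2, t3]
  ring

section Abs

variable {V : Type} [CommRing V] [Algebra ℝ V] (A : DiffAlg N V)
  {c : Fin N → Fin N → Fin N → Fin N → ℝ} (M : Matrix (Fin N) (Fin N) ℝ)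

/-- the quadratic density of order 1 -/
noncomputable def RR : V := ∑ i, ∑ j, (M i j / 2) • (A.u (i, 1) * A.u (j, 1))

lemma ev_u1 (K : Fin N → V) (i : Fin N) : A.ev K (A.u (i, 1)) = A.D (K i) := by
  unfold DiffAlg.ev
  rw [A.der_u]
  rfl

variable {M}

lemma swap2 (hM : M.IsSymm) (f : Fin N → Fin N → V) :
    ∑ i, ∑ j, M i j • f i j = ∑ i, ∑ j, M i j • f j i := by
  rw [Finset.sum_comm]
  refine Finset.sum_congr rfl fun i _ => Finset.sum_congr rfl fun j _ => ?_
  rw [hM.apply i j]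

lemma half_smul (x : V) (r : ℝ) : (r / 2) • x + (r / 2) • x = r • x := by
  rw [← add_smul, add_halves]

lemma ev_RR (hM : M.IsSymm) (K : Fin N → V) :
    A.ev K (RR A M) = ∑ i, ∑ j, M i j • (A.u (i, 1) * A.D (K j)) := by
  have e : A.ev K (RR A M) = (1 / 2 : ℝ) • (∑ i, ∑ j, M i j • (A.u (i, 1) * A.D (K j))) +
      (1 / 2 : ℝ) • ∑ i, ∑ j, M i j • (A.u (j, 1) * A.D (K i)) := by
    unfold RR
    simp only [map_sum, Derivation.map_smul, Derivation.leibniz, ev_u1, smul_eq_mul,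
      Finset.smul_sum, ← Finset.sum_add_distrib, smul_smul]
    refine Finset.sum_congr rfl fun i _ => Finset.sum_congr rfl fun j _ => ?_
    rw [show (1 / 2 : ℝ) * M i j = M i j / 2 by ring, smul_add]
  rw [e, ← swap2 hM (fun i j => A.u (i, 1) * A.D (K j)), ← smul_add, ← two_smul ℝ, smul_smul]
  norm_num

lemma lin_part (hM : M.IsSymm) : ∑ i, ∑ j, M i j • (A.u (i, 1) * A.u (j, 4)) =
    A.D ((∑ i, ∑ j, M i j • (A.u (i, 1) * A.u (j, 3))) -
      (1 / 2 : ℝ) • ∑ i, ∑ j, M i j • (A.u (i, 2) * A.u (j, 2))) := by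
  have e1 : A.D (∑ i, ∑ j, M i j • (A.u (i, 1) * A.u (j, 3))) =
      (∑ i, ∑ j, M i j • (A.u (i, 1) * A.u (j, 4))) +
        ∑ i, ∑ j, M i j • (A.u (i, 2) * A.u (j, 3)) := by
    simp only [map_sum, Derivation.map_smul, Derivation.leibniz, A.D_u, smul_eq_mul,
      ← Finset.sum_add_distrib, ← smul_add]
    refine Finset.sum_congr rfl fun i _ => Finset.sum_congr rfl fun j _ => ?_
    congr 1
    ring
  have e2 : A.D (∑ i, ∑ j, M i j • (A.u (i, 2) * A.u (j, 2))) =
      (∑ i, ∑ j, M i j • (A.u (i, 2) * A.u (j, 3))) +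
        ∑ i, ∑ j, M i j • (A.u (j, 2) * A.u (i, 3)) := by
    simp only [map_sum, Derivation.map_smul, Derivation.leibniz, A.D_u, smul_eq_mul,
      ← Finset.sum_add_distrib, ← smul_add]
  rw [← swap2 hM (fun i j => A.u (i, 2) * A.u (j, 3))] at e2
  rw [map_sub, Derivation.map_smul, e1, e2, ← two_smul ℝ, smul_smul]
  norm_num

/-- **Abstract form.** An invariant form gives a conserved density of order 1. -/
theorem conserved_RR (hM : M.IsSymm)
    (hc : ∀ b i j k, c b i j k = c b j i k ∧ c b i j k = c b i k j)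
    (hinv : ∀ i a j l, ∑ b, M i b * c b a j l = ∑ b, M a b * c b i j l) :
    ∃ T, A.ev (rh A c) (RR A M) = A.D T := by
  obtain ⟨Q, hQ⟩ : ∃ Q : Fin N → Fin N → Fin N → Fin N → ℝ,
      Q = fun i j k l => ∑ b, M i b * c b j k l := ⟨_, rfl⟩
  obtain ⟨P, hP⟩ : ∃ P : Fin N → V, P = fun i => ∑ j, ∑ k, ∑ l, Q i j k l •
      (A.u (j, 1) * A.u (k, 1) * A.u (l, 1)) := ⟨_, rfl⟩
  have hPb : ∀ i, ∑ b, M i b • cb A c b = P i := by
    intro i
    rw [hP, hQ]
    unfold cb
    simp only [Finset.smul_sum, Finset.sum_smul, smul_smul]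
    rw [Finset.sum_comm]
    refine Finset.sum_congr rfl fun j _ => ?_
    rw [Finset.sum_comm]
    refine Finset.sum_congr rfl fun k _ => ?_
    rw [Finset.sum_comm]
  have hDP : ∀ i, A.D (P i) = ∑ j, ∑ k, ∑ l, Q i j k l •
      (A.u (j, 1) * A.u (k, 1) * A.u (l, 2) +
        A.u (l, 1) * (A.u (j, 1) * A.u (k, 2) + A.u (k, 1) * A.u (j, 2))) := by
    intro i
    rw [hP]
    simp only [map_sum, Derivation.map_smul, Derivation.leibniz, A.D_u, smul_eq_mul]
  have heul := euler Q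
    (fun i j k l => by rw [hQ]; exact hinv i j k l)
    (fun i j k l => by rw [hQ]; exact Finset.sum_congr rfl fun b _ => by rw [(hc b j k l).1])
    (fun i j k l => by rw [hQ]; exact Finset.sum_congr rfl fun b _ => by rw [(hc b j k l).2])
    (fun i => A.u (i, 1)) (fun i => A.u (i, 2))
  obtain ⟨Z, hZ⟩ : ∃ Z, Z = ∑ i, A.u (i, 2) * P i := ⟨_, rfl⟩
  have hX : ∑ i, A.u (i, 1) * A.D (P i) = 3 * Z := by
    rw [hZ, hP]
    rw [← heul]
    refine Finset.sum_congr rfl fun i _ => ?_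
    have := hDP i
    rw [hP] at this
    rw [this]
  have hF : A.D (∑ i, A.u (i, 1) * P i) = 4 * Z := by
    have : A.D (∑ i, A.u (i, 1) * P i) = (∑ i, A.u (i, 1) * A.D (P i)) + ∑ i, A.u (i, 2) * P i := by
      simp only [map_sum, Derivation.leibniz, A.D_u, smul_eq_mul, ← Finset.sum_add_distrib]
      refine Finset.sum_congr rfl fun i _ => ?_
      ring
    rw [this, hX, ← hZ]
    ring
  refine ⟨((∑ i, ∑ j, M i j • (A.u (i, 1) * A.u (j, 3))) -
      (1 / 2 : ℝ) • ∑ i, ∑ j, M i j • (A.u (i, 2) * A.u (j, 2))) +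
      (3 / 4 : ℝ) • ∑ i, A.u (i, 1) * P i, ?_⟩
  rw [map_add, ← lin_part A hM, Derivation.map_smul, hF, ev_RR A hM]
  have h1 : (3 / 4 : ℝ) • (4 * Z) = 3 * Z := by
    rw [Algebra.smul_def, ← mul_assoc]
    congr 1
    rw [← map_ofNat (algebraMap ℝ V) 4, ← map_mul, ← map_ofNat (algebraMap ℝ V) 3]
    norm_num
  rw [h1, ← hX]
  have h2 : ∀ i, A.D (P i) = ∑ j, M i j • A.D (cb A c j) := by
    intro i
    rw [← hPb i, map_sum]
    simp only [Derivation.map_smul]
  rw [← Finset.sum_add_distrib]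
  refine Finset.sum_congr rfl fun i _ => ?_
  rw [h2 i, Finset.mul_sum, ← Finset.sum_add_distrib]
  refine Finset.sum_congr rfl fun j _ => ?_
  unfold rh
  rw [map_add, A.D_u, mul_add, smul_add, mul_smul_comm]

lemma pd_pd_RR (hM : M.IsSymm) (i j : Fin N) :
    A.pd (i, 1) (A.pd (j, 1) (RR A M)) = M i j • (1 : V) := by
  have h1 : A.pd (j, 1) (RR A M) = ∑ a, M a j • A.u (a, 1) := by
    have e : A.pd (j, 1) (RR A M) = (∑ a, (M a j / 2) • A.u (a, 1)) +
        ∑ a, (M j a / 2) • A.u (a, 1) := by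
      unfold RR
      simp only [map_sum, Derivation.map_smul, Derivation.leibniz, pdU, smul_eq_mul, mul_ite,
        mul_one, mul_zero, smul_add, smul_ite, smul_zero, Finset.sum_add_distrib,
        Finset.sum_ite_eq', Finset.mem_univ, if_true]
      congr 1
      rw [Finset.sum_comm]
      simp only [Finset.sum_ite_eq', Finset.mem_univ, if_true]
    rw [e, ← Finset.sum_add_distrib]
    refine Finset.sum_congr rfl fun a _ => ?_
    rw [hM.apply a j, half_smul]
  rw [h1]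
  simp only [map_sum, Derivation.map_smul, pdU, smul_ite, smul_zero, Finset.sum_ite_eq',
    Finset.mem_univ, if_true]

end Abs

variable {c : Fin N → Fin N → Fin N → Fin N → ℝ} {M : Matrix (Fin N) (Fin N) ℝ}

/-- the density as a polynomial -/
noncomputable def qR (M : Matrix (Fin N) (Fin N) ℝ) : MvPolynomial (Fin N × ℕ) ℝ :=
  ∑ i, ∑ j, C (M i j / 2) * (X (i, 1) * X (j, 1))

lemma Phi_qR (p : Jets N) : Phi p (qR M) = RR (germAlg p) M := by
  unfold qR RR
  simp only [map_sum, map_mul, Phi_X, Phi_C, Algebra.smul_def]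

lemma near_qR (p : Jets N) : AnalyticNear p 2 (fun x => eval x (qR M)) := by
  refine ⟨fun y => ∑ i, ∑ j, (M i j / 2) * (y (i, 1) * y (j, 1)), ?_, ?_⟩
  · refine Finset.analyticAt_fun_sum _ fun i _ => Finset.analyticAt_fun_sum _ fun j _ => ?_
    have h : ∀ i : Fin N, AnalyticAt ℝ (fun y : Fin N × Fin 2 → ℝ => y (i, 1)) (trunc 2 p) :=
      fun i => (ContinuousLinearMap.proj (R := ℝ) (φ := fun _ : Fin N × Fin 2 => ℝ)
        (i, 1)).analyticAt _
    exact analyticAt_const.mul ((h i).mul (h j))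
  · filter_upwards with x
    unfold qR
    simp [trunc]

theorem law_of_form (hM : M.IsSymm) (hdet : M.det ≠ 0)
    (hc : ∀ b i j k, c b i j k = c b j i k ∧ c b i j k = c b i k j)
    (hinv : ∀ i a j l, ∑ b, M i b * c b a j l = ∑ b, M a b * c b i j l) :
    HasNondegenerateLaw (system (fun _ _ _ => 0) (constBeta c)) 1 := by
  have hρ : AnalyticNear (0 : Jets N) 2 (fun x => eval x (qR M)) := near_qR 0
  have hmk : mk (0 : Jets N) (fun x => eval x (qR M)) ⟨_, hρ⟩ = RR (germAlg 0) M := by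
    rw [← Phi_qR, Phi_eq]
  obtain ⟨T, hT⟩ := conserved_RR (germAlg (0 : Jets N)) (c := c) hM hc hinv
  obtain ⟨τ, ⟨n, hτ⟩, rfl⟩ := exists_mk 0 T
  refine ⟨0, fun x => eval x (qR M), ⟨hρ, n, τ, hτ, ?_⟩, ?_⟩
  · rw [conserved_iff 0 _ τ hρ hτ, hmk]
    exact hT
  · have : hessian 1 (fun x => eval x (qR M)) 0 = M := by
      ext i j
      rw [hessian_val 0 1 _ hρ, hmk, pd_pd_RR _ hM, val_smul, map_one, mul_one]
    rw [this]
    exact hdet

end Pool.Agent.Y594.CF.Conv
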