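import Mathlib
import Pool.Agent.Results.MP_027f17_mp.DegenerateLaws

/-!
Conserved densities of the systems `u^i_t = u^i_xxx` (`i ≠ v`), `u^v_t = u^v_xxx + c(u_x, u_x, u_x)`,
abstract part. Adapted from the starting file `DegenerateLaws`.
-/

namespace Pool.Agent.Y594.CF

open Pool.Agent.Helper974.Diff Filter Topology
open Pool.Agent.Results.MP_027f17_mp

variable {N : ℕ} {V : Type} [CommRing V] [Algebra ℝ V] (A : DiffAlg N V)
  (v : Fin N) (c : Fin N → Fin N → Fin N → ℝ)

/-- the cubic term -/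
def cb : V := ∑ i, ∑ j, ∑ k, c i j k • (A.u (i, 1) * A.u (j, 1) * A.u (k, 1))

/-- right-hand sides -/
def rh (i : Fin N) : V := A.u (i, 3) + if i = v then cb A c else 0

/-- derivative of the cubic term -/
def qq (i : Fin N) : V := A.pd (i, 1) (cb A c)

lemma pd_cb_ne (i : Fin N) (j : ℕ) (hj : j ≠ 1) : A.pd (i, j) (cb A c) = 0 := by
  unfold cb
  simp only [map_sum, Derivation.map_smul, Derivation.leibniz, A.pd_u]
  apply Finset.sum_eq_zero
  intro a _
  apply Finset.sum_eq_zero
  intro b _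
  apply Finset.sum_eq_zero
  intro d _
  have h : ∀ e : Fin N, ((i, j) : Fin N × ℕ) ≠ (e, 1) := by
    intro e h
    exact hj (congrArg Prod.snd h)
  rw [if_neg (h _), if_neg (h _), if_neg (h _)]
  simp

lemma ordLT_cb : A.OrdLT 2 (cb A c) := fun i j hj => pd_cb_ne A c i j (by omega)

lemma ordLT_qq (i : Fin N) : A.OrdLT 2 (qq A c i) := DiffAlg.OrdLT.pd A (ordLT_cb A c) _

lemma P_u' (i b : Fin N) (p : V) :
    A.P i p (A.u (b, 3)) = if i = b then - A.D (A.D (A.D p)) else 0 := by
  rw [A.P_eq i p (A.OrdLT_u (b, 3))]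
  simp only [Finset.sum_range_succ, Finset.sum_range_zero, A.pd_u]
  by_cases h : i = b
  · simp [h]; ring
  · simp [h]

lemma P_cb (i : Fin N) (p : V) : A.P i p (cb A c) = - A.D (p * qq A c i) := by
  rw [A.P_eq i p (ordLT_cb A c)]
  simp [Finset.sum_range_succ, pd_cb_ne, qq]

/-- equation satisfied by variational derivatives of conserved densities -/
lemma cosym' (ρ σ : V) (h : A.ev (rh A v c) ρ = A.D σ) (i : Fin N) :
    A.ev (rh A v c) (A.E i ρ) - A.D (A.D (A.D (A.E i ρ))) - A.D (A.E v ρ * qq A c i) = 0 := by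
  have h1 := A.E_ev (rh A v c) i ρ
  rw [h, A.E_D] at h1
  have h2 : ∀ b, A.P i (A.E b ρ) (rh A v c b) = (if i = b then - A.D (A.D (A.D (A.E b ρ))) else 0)
      + (if b = v then - A.D (A.E v ρ * qq A c i) else 0) := by
    intro b
    unfold rh
    rw [A.P_add_right, P_u']
    by_cases hb : b = v
    · subst hb
      rw [if_pos rfl, if_pos rfl, P_cb]
    · rw [if_neg hb, if_neg hb, A.P_zero_right]
  rw [Finset.sum_congr rfl (fun b _ => h2 b), Finset.sum_add_distrib, Finset.sum_ite_eq,
    Finset.sum_ite_eq'] at h1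
  simp only [Finset.mem_univ, if_true] at h1
  linear_combination -h1

lemma iter_D_u' (j k : ℕ) (i : Fin N) : A.D^[j] (A.u (i, k)) = A.u (i, k + j) := by
  induction j generalizing k with
  | zero => rfl
  | succ j ih => rw [Function.iterate_succ_apply, A.D_u, ih]; congr 2; omega

lemma pd_iter_rh (n : ℕ) (a b : Fin N) (j : ℕ) (hj : j ≤ n) :
    A.pd (a, n + 1) (A.D^[j] (rh A v c b)) =
      (if a = b ∧ n = j + 2 then 1 else 0) + (if b = v ∧ j = n then qq A c a else 0) := by
  have hc : A.pd (a, n + 1) (A.D^[j] (cb A c)) = if j = n then qq A c a else 0 := by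
    by_cases h : j = n
    · subst h
      rw [if_pos rfl, add_comm j 1, A.pd_top_iter_D (ordLT_cb A c)]
      rfl
    · rw [if_neg h]
      exact DiffAlg.OrdLT.iter_D A (ordLT_cb A c) j a (n + 1) (by omega)
  have hu : ∀ b, A.pd (a, n + 1) (A.D^[j] (A.u (b, 3))) = if a = b ∧ n = j + 2 then 1 else 0 := by
    intro b
    rw [iter_D_u', A.pd_u]
    by_cases h : a = b ∧ n = j + 2
    · rw [if_pos h, if_pos]; rw [h.1, h.2]; congr 1; omega
    · rw [if_neg h, if_neg]
      intro h2
      apply h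
      refine ⟨congrArg Prod.fst h2, ?_⟩
      have := congrArg Prod.snd h2
      simp at this
      omega
  unfold rh
  rw [A.iter_D_add, map_add, hu]
  by_cases hb : b = v
  · rw [if_pos hb, hc]
    simp [hb]
  · rw [if_neg hb, A.iter_D_zero, map_zero]
    simp [hb]

/-- `∂_{a,n+1}` of the time derivative of a function of order `≤ n` -/
lemma pd_ev' (n : ℕ) (hn : 2 ≤ n) (f : V) (hf : A.OrdLT (n + 1) f) (a : Fin N) :
    A.pd (a, n + 1) (A.ev (rh A v c) f) = A.pd (a, n - 2) f + qq A c a * A.pd (v, n) f := by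
  unfold DiffAlg.ev
  rw [A.pd_der, hf a (n + 1) le_rfl, map_zero, zero_add, A.der_eq _ hf]
  have h1 : ∀ j ∈ Finset.range (n + 1), ∑ b : Fin N, A.pd (a, n + 1) (A.D^[j] (rh A v c b)) *
      A.pd (b, j) f = (if n = j + 2 then A.pd (a, j) f else 0)
        + (if j = n then qq A c a * A.pd (v, n) f else 0) := by
    intro j hj
    have hj' : j ≤ n := by simpa [Nat.lt_succ_iff] using hj
    simp only [pd_iter_rh A v c n a _ j hj', add_mul, Finset.sum_add_distrib, ite_mul, one_mul,
      zero_mul, ite_and]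
    congr 1
    · simp
    · by_cases h : j = n
      · subst h; simp
      · simp [h]
  rw [Finset.sum_congr rfl h1, Finset.sum_add_distrib]
  congr 1
  · rw [Finset.sum_eq_single (n - 2)]
    · rw [if_pos (by omega)]
    · intro b _ hb; rw [if_neg (by omega)]
    · intro h; simp at h
  · rw [Finset.sum_eq_single n]
    · rw [if_pos rfl]
    · intro b _ hb; rw [if_neg hb]
    · intro h; simp at h

lemma pd_ddd' (a : Fin N) (k : ℕ) (f : V) : A.pd (a, k + 3) (A.D (A.D (A.D f)))
    = A.D (A.D (A.D (A.pd (a, k + 3) f))) + 3 * A.D (A.D (A.pd (a, k + 2) f))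
      + 3 * A.D (A.pd (a, k + 1) f) + A.pd (a, k) f := by
  simp only [A.pd_succ_D, map_add]
  ring

/-- no dependence on any variable -/
lemma ordLT_zero_of_D' (f : V) (h : A.D f = 0) : A.OrdLT 0 f := by
  apply A.ordLT_of_D
  rw [h]
  intro i j _
  rw [map_zero]

lemma pdU (a i : Fin N) : A.pd (a, 1) (A.u (i, 1)) = if i = a then 1 else 0 := by
  rw [A.pd_u]
  by_cases h : i = a
  · simp [h]
  · rw [if_neg, if_neg h]
    intro h2
    exact h (congrArg Prod.fst h2).symm

variable {c}

lemma qq_eq (hc : ∀ i j k, c i j k = c j i k ∧ c i j k = c i k j) (a : Fin N) :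
    qq A c a = 3 * ∑ j, ∑ k, c a j k • (A.u (j, 1) * A.u (k, 1)) := by
  obtain ⟨S, hS⟩ : ∃ S, S = ∑ j, ∑ k, c a j k • (A.u (j, 1) * A.u (k, 1)) := ⟨_, rfl⟩
  have e1 : ∑ i, ∑ j, ∑ k, c i j k • ((A.u (i, 1) * A.u (j, 1)) * (if k = a then (1 : V) else 0))
      = S := by
    rw [hS]
    apply Finset.sum_congr rfl
    intro i _
    apply Finset.sum_congr rfl
    intro j _
    simp only [mul_ite, mul_one, mul_zero, smul_ite, smul_zero, Finset.sum_ite_eq',
      Finset.mem_univ, if_true]
    rw [(hc i j a).2, (hc i a j).1]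
  have e2 : ∑ i, ∑ j, ∑ k, c i j k • ((A.u (i, 1) * A.u (k, 1)) * (if j = a then (1 : V) else 0))
      = S := by
    rw [hS]
    apply Finset.sum_congr rfl
    intro i _
    rw [Finset.sum_comm]
    apply Finset.sum_congr rfl
    intro k _
    simp only [mul_ite, mul_one, mul_zero, smul_ite, smul_zero, Finset.sum_ite_eq',
      Finset.mem_univ, if_true]
    rw [(hc i a k).1]
  have e3 : ∑ i, ∑ j, ∑ k, c i j k • ((A.u (j, 1) * A.u (k, 1)) * (if i = a then (1 : V) else 0))
      = S := by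
    rw [hS, Finset.sum_comm]
    apply Finset.sum_congr rfl
    intro j _
    rw [Finset.sum_comm]
    apply Finset.sum_congr rfl
    intro k _
    simp only [mul_ite, mul_one, mul_zero, smul_ite, smul_zero, Finset.sum_ite_eq',
      Finset.mem_univ, if_true]
  rw [← hS]
  have : qq A c a = (∑ i, ∑ j, ∑ k, c i j k • ((A.u (i, 1) * A.u (j, 1)) *
      (if k = a then (1 : V) else 0))) + (∑ i, ∑ j, ∑ k, c i j k • ((A.u (i, 1) * A.u (k, 1)) *
      (if j = a then (1 : V) else 0))) + (∑ i, ∑ j, ∑ k, c i j k • ((A.u (j, 1) * A.u (k, 1)) *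
      (if i = a then (1 : V) else 0))) := by
    simp only [← Finset.sum_add_distrib, ← smul_add]
    unfold qq cb
    simp only [map_sum, Derivation.map_smul, Derivation.leibniz, pdU, smul_eq_mul]
    refine Finset.sum_congr rfl fun i _ => Finset.sum_congr rfl fun j _ =>
      Finset.sum_congr rfl fun k _ => ?_
    congr 1
    ring
  rw [this, e1, e2, e3]
  ring

lemma pd_pd_qq (hc : ∀ i j k, c i j k = c j i k ∧ c i j k = c i k j) (a j k : Fin N) :
    A.pd (j, 1) (A.pd (k, 1) (qq A c a)) = (6 * c a j k) • (1 : V) := by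
  have h3 : ∀ b : Fin N × ℕ, A.pd b (3 : V) = 0 := by
    intro b
    have := (A.pd b).map_natCast 3
    simpa using this
  have h1 : A.pd (k, 1) (qq A c a) = 6 * ∑ i, c a i k • A.u (i, 1) := by
    rw [qq_eq A hc, Derivation.leibniz, h3, smul_zero, add_zero, smul_eq_mul]
    have e : A.pd (k, 1) (∑ j, ∑ m, c a j m • (A.u (j, 1) * A.u (m, 1))) =
        (∑ i, c a i k • A.u (i, 1)) + ∑ i, c a i k • A.u (i, 1) := by
      simp only [map_sum, Derivation.map_smul, Derivation.leibniz, pdU, smul_eq_mul, mul_ite,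
        mul_one, mul_zero, smul_add, smul_ite, smul_zero, Finset.sum_add_distrib,
        Finset.sum_ite_eq', Finset.mem_univ, if_true]
      congr 1
      rw [Finset.sum_comm]
      simp only [Finset.sum_ite_eq', Finset.mem_univ, if_true]
      exact Finset.sum_congr rfl fun i _ => by rw [(hc a k i).2]
    rw [e]
    ring
  have h6 : ∀ b : Fin N × ℕ, A.pd b (6 : V) = 0 := by
    intro b
    have := (A.pd b).map_natCast 6
    simpa using this
  rw [h1, Derivation.leibniz, h6, smul_zero, add_zero, smul_eq_mul]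
  simp only [map_sum, Derivation.map_smul, pdU, smul_ite, smul_zero, Finset.sum_ite_eq',
    Finset.mem_univ, if_true]
  rw [Algebra.smul_def, Algebra.smul_def, map_mul, mul_one, mul_one, map_ofNat]

/-- the second derivatives of a total derivative of a function of order 0 vanish -/
lemma quad_exact' (Q l : V) (hQ : A.OrdLT 2 Q) (h : Q = 3 * A.D l) (i k : Fin N) :
    A.pd (i, 1) (A.pd (k, 1) Q) = 0 := by
  have h3 : ∀ a : Fin N × ℕ, A.pd a (3 : V) = 0 := by
    intro a
    have := (A.pd a).map_natCast 3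
    simpa using this
  have hl : A.OrdLT 1 l := by
    apply A.ordLT_of_D
    intro i j hj
    have h0 : (3 : V) * A.pd (i, j) (A.D l) = 0 := by
      have := congrArg (A.pd (i, j)) h
      rw [Derivation.leibniz (A.pd (i, j)) 3, h3, hQ i j hj] at this
      simp only [smul_eq_mul, mul_zero, add_zero] at this
      exact this.symm
    exact DegenerateLaws.cancel 3 (by norm_num) (A.pd (i, j) (A.D l)) (by push_cast; exact h0)
  have hD : ∀ i k : Fin N, A.pd (i, 1) (A.pd (k, 1) (A.D l)) = 0 := by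
    intro i k
    rw [A.pd_succ_D k 0, hl k 1 le_rfl, map_zero, zero_add, A.pd_comm, hl i 1 le_rfl, map_zero]
  rw [h, Derivation.leibniz (A.pd (k, 1)) 3, h3, smul_zero, add_zero, smul_eq_mul,
      Derivation.leibniz (A.pd (i, 1)) 3, h3, smul_zero, add_zero, smul_eq_mul, hD, mul_zero]

/-- linear algebra: a symmetric tensor with proportional slices is a cube -/
lemma cube_of {W : Type} [AddCommGroup W] [Module ℝ W]
    (hc : ∀ i j k, c i j k = c j i k ∧ c i j k = c i k j) (h : Fin N → W)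
    (rel : ∀ i a j k, c a j k • h i = c i j k • h a) (i0 : Fin N) (hne : h i0 ≠ 0) :
    ∃ (a : ℝ) (w : Fin N → ℝ), ∀ i j k, c i j k = a * w i * w j * w k := by
  obtain ⟨φ, hφ⟩ : ∃ φ : Module.Dual ℝ W, φ (h i0) ≠ 0 := by
    by_contra hcon
    push Not at hcon
    exact hne ((Module.forall_dual_apply_eq_zero_iff ℝ (h i0)).1 hcon)
  obtain ⟨w, hw⟩ : ∃ w : Fin N → ℝ, w = fun a => φ (h a) / φ (h i0) := ⟨_, rfl⟩
  have key : ∀ a j k, c a j k = w a * c i0 j k := by
    intro a j k
    have h1 := congrArg φ (rel i0 a j k)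
    rw [map_smul, map_smul, smul_eq_mul, smul_eq_mul] at h1
    rw [hw]
    field_simp
    linarith
  refine ⟨c i0 i0 i0, w, fun i j k => ?_⟩
  rw [key i j k, (hc i0 j k).1, key j i0 k, (hc i0 i0 k).2, (hc i0 k i0).1, key k i0 i0]
  ring

variable {v} in
/-- **Abstract form.** If the cubic form is not a cube, the Hessian of a conserved density has a
zero column. -/
theorem hessian_column' (hc : ∀ i j k, c i j k = c j i k ∧ c i j k = c i k j)
    (hnc : ¬ ∃ (a : ℝ) (w : Fin N → ℝ), ∀ i j k, c i j k = a * w i * w j * w k)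
    (k : ℕ) (ρ σ : V) (hρ : A.OrdLT (k + 2) ρ)
    (h : A.ev (rh A v c) ρ = A.D σ) (i : Fin N) : A.pd (i, k + 1) (A.pd (v, k + 1) ρ) = 0 := by
  obtain ⟨m, hm⟩ : ∃ m, 2 * (k + 1) = m + 2 := ⟨2 * k, by ring⟩
  have hf : ∀ i, A.OrdLT (m + 3) (A.E i ρ) := by
    intro i
    have := A.E_ordLT hρ i
    rw [hm] at this
    exact this
  have htop : ∀ i a, A.pd (a, m + 2) (A.E i ρ) = (-1) ^ (k + 1) * A.pd (a, k + 1) (A.pd (i, k + 1) ρ) := by
    intro i a
    rw [← hm]
    exact A.pd_top_E hρ i a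
  have hsym : ∀ i a, A.pd (a, m + 2) (A.E i ρ) = A.pd (i, m + 2) (A.E a ρ) := by
    intro i a
    rw [htop, htop, A.pd_comm]
  have hord : ∀ i, A.OrdLT (m + 3) (A.E v ρ * qq A c i) := fun i =>
    DiffAlg.OrdLT.mul A (hf v) (DiffAlg.OrdLT.mono A (ordLT_qq A c i) (by omega))
  have e1 : ∀ i a, A.D (A.pd (a, m + 2) (A.E i ρ)) = 0 := by
    intro i a
    have h1 := congrArg (A.pd (a, m + 4)) (cosym' A v c ρ σ h i)
    rw [map_sub, map_sub, map_zero, pd_ev' A v c (m + 3) (by omega) _
      (DiffAlg.OrdLT.mono A (hf i) (by omega)), hf i v (m + 3) le_rfl,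
      show m + 4 = (m + 1) + 3 by ring, pd_ddd', hf i a (m + 1 + 3) (by omega),
      hf i a (m + 1 + 2) (by omega), show m + 1 + 3 = (m + 3) + 1 by ring, A.pd_succ_D,
      hord i a (m + 3 + 1) (by omega), hord i a (m + 3) le_rfl] at h1
    simp only [map_zero, mul_zero, add_zero, zero_add, sub_zero,
      show m + 3 - 2 = m + 1 by omega, show m + 1 + 1 = m + 2 by ring] at h1
    apply DegenerateLaws.cancel 3 (by norm_num)
    push_cast
    rw [← neg_eq_zero, ← h1]
    ring
  have e2 : ∀ i a, A.pd (v, m + 2) (A.E i ρ) * qq A c a - A.pd (a, m + 2) (A.E v ρ) * qq A c i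
      = 3 * A.D (A.pd (a, m + 1) (A.E i ρ)) := by
    intro i a
    have h1 := congrArg (A.pd (a, m + 3)) (cosym' A v c ρ σ h i)
    rw [map_sub, map_sub, map_zero, pd_ev' A v c (m + 2) (by omega) _ (hf i), pd_ddd',
      hf i a (m + 3) le_rfl, e1 i a, A.pd_succ_D, hord i a (m + 2 + 1) (by omega),
      Derivation.leibniz, ordLT_qq A c i a (m + 2) (by omega)] at h1
    simp only [map_zero, mul_zero, add_zero, zero_add, smul_eq_mul,
      show m + 2 - 2 = m by omega] at h1
    linear_combination h1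
  have z : ∀ i a, A.OrdLT 0 (A.pd (a, m + 2) (A.E i ρ)) := fun i a =>
    ordLT_zero_of_D' A _ (e1 i a)
  obtain ⟨H, hH⟩ : ∃ H : Fin N → V, H = fun i => A.pd (i, m + 2) (A.E v ρ) := ⟨_, rfl⟩
  have hz : ∀ i b, A.pd b (H i) = 0 := by
    intro i b
    rw [hH]
    exact z v i b.1 b.2 (Nat.zero_le _)
  have rel : ∀ i a j k, c a j k • H i = c i j k • H a := by
    intro i a j k
    have h1 := e2 i a
    rw [hsym i v] at h1
    have h2 : H i * qq A c a - H a * qq A c i = 3 * A.D (A.pd (a, m + 1) (A.E i ρ)) := by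
      rw [hH]
      exact h1
    have h3 : A.OrdLT 2 (H i * qq A c a - H a * qq A c i) := by
      intro b d hd
      rw [map_sub, Derivation.leibniz, Derivation.leibniz, hz, hz, ordLT_qq A c a b d hd,
        ordLT_qq A c i b d hd]
      simp
    have h4 := quad_exact' A _ _ h3 h2 j k
    rw [map_sub, map_sub, Derivation.leibniz, Derivation.leibniz, hz, hz, smul_zero, smul_zero,
      add_zero, add_zero, smul_eq_mul, smul_eq_mul, Derivation.leibniz, Derivation.leibniz, hz, hz,
      smul_zero, smul_zero, add_zero, add_zero, smul_eq_mul, smul_eq_mul, pd_pd_qq A hc,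
      pd_pd_qq A hc] at h4
    have h5 : (6 : ℝ) • (c a j k • H i - c i j k • H a) = 0 := by
      rw [← h4, smul_sub, smul_smul, smul_smul, mul_smul_comm, mul_smul_comm, mul_one, mul_one]
    have h6 := (smul_eq_zero_iff_right (by norm_num : (6 : ℝ) ≠ 0)).1 h5
    exact sub_eq_zero.1 h6
  have hH0 : ∀ i, H i = 0 := by
    intro i
    by_contra hne
    exact hnc (cube_of hc H rel i hne)
  have h5 := htop v i
  have h6 : A.pd (i, m + 2) (A.E v ρ) = 0 := by
    have := hH0 i
    rw [hH] at this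
    exact this
  rw [h6] at h5
  rcases neg_one_pow_eq_or V (k + 1) with h | h <;> rw [h] at h5 <;> simpa using h5.symm

end Pool.Agent.Y594.CF
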