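import Mathlib
import Pool.Agent.Results.MP_027f17_mp.DegenerateLaws
import Pool.Agent.Y594.CF.Abs
import Pool.Agent.Y594.CF.GenLaw
import Pool.Agent.Y594.CF.Conv

/-!
Invariant forms of cubic maps: single cubic forms, and maps satisfying (C5) in dimension at most 2.
-/

namespace Pool.Agent.Y594.CF.Forms

open MvPolynomial
open Pool.Agent.Results.MP_027f17_mp.DegenerateLaws
open Pool.Agent.Y594.CF.GenLaw

variable {N : ℕ}

/-- the cubic map whose only component is the cubic form `c`, placed at `v` -/
def single (v : Fin N) (c : Fin N → Fin N → Fin N → ℝ) : Fin N → Fin N → Fin N → Fin N → ℝ :=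
  fun i j k l => if i = v then c j k l else 0

variable {v : Fin N} {c : Fin N → Fin N → Fin N → ℝ}

lemma single_symm (hc : ∀ i j k, c i j k = c j i k ∧ c i j k = c i k j) (b i j k : Fin N) :
    single v c b i j k = single v c b j i k ∧ single v c b i j k = single v c b i k j := by
  unfold single
  rw [← (hc i j k).1, ← (hc i j k).2]
  exact ⟨rfl, rfl⟩

lemma single_mul (hc : ∀ i j k, c i j k = c j i k ∧ c i j k = c i k j)
    (hv : ∀ j k, c v j k = 0) (i b d e j k l s : Fin N) (h : j = s ∨ k = s ∨ l = s) :
    single v c i j k l * single v c s b d e = 0 := by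
  by_cases hs : s = v
  · have h0 : c j k l = 0 := by
      subst hs
      rcases h with rfl | rfl | rfl
      · exact hv _ _
      · rw [(hc j k l).1]; exact hv _ _
      · rw [(hc j k l).2, (hc j l k).1]; exact hv _ _
    have : single v c i j k l = 0 := by
      unfold single
      rw [h0, ite_self]
    rw [this, zero_mul]
  · have : single v c s b d e = 0 := by
      unfold single
      rw [if_neg hs]
    rw [this, mul_zero]

lemma single_conditions (hc : ∀ i j k, c i j k = c j i k ∧ c i j k = c i k j)
    (hv : ∀ j k, c v j k = 0) :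
    Conditions (fun _ _ _ => 0) (constBeta (single v c)) := by
  refine conditions' (single_symm hc) ?_
  intro i x y z v' w
  apply Finset.sum_eq_zero
  intro s _
  rw [single_mul hc hv _ _ _ _ _ _ _ s (Or.inr (Or.inl rfl)),
    single_mul hc hv _ _ _ _ _ _ _ s (Or.inr (Or.inr rfl)),
    single_mul hc hv _ _ _ _ _ _ _ s (Or.inr (Or.inr rfl)),
    single_mul hc hv _ _ _ _ _ _ _ s (Or.inr (Or.inr rfl))]
  ring

lemma sum_single (M : Matrix (Fin N) (Fin N) ℝ) (i j k l : Fin N) :
    ∑ b, M i b * single v c b j k l = M i v * c j k l := by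
  simp [single]

/-- a cubic form with a nondegenerate invariant form is a cube -/
lemma cube_of_form (hc : ∀ i j k, c i j k = c j i k ∧ c i j k = c i k j)
    (M : Matrix (Fin N) (Fin N) ℝ) (hdet : M.det ≠ 0)
    (hinv : ∀ i j k l, ∑ b, M i b * single v c b j k l = ∑ b, M j b * single v c b i k l) :
    ∃ (a : ℝ) (w : Fin N → ℝ), ∀ i j k, c i j k = a * w i * w j * w k := by
  obtain ⟨i0, hi0⟩ : ∃ i0, M i0 v ≠ 0 := by
    by_contra hcon
    push Not at hcon
    exact hdet (Matrix.det_eq_zero_of_column_eq_zero v hcon)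
  refine Pool.Agent.Y594.CF.cube_of hc (fun i => M i v) ?_ i0 hi0
  intro i a j k
  have h := hinv i a j k
  rw [sum_single, sum_single] at h
  simp only [smul_eq_mul]
  linarith

/-- a cube has a nondegenerate invariant form -/
lemma form_of_cube (hv : ∀ j k, c v j k = 0) (a : ℝ) (w : Fin N → ℝ)
    (h : ∀ i j k, c i j k = a * w i * w j * w k) :
    ∃ M : Matrix (Fin N) (Fin N) ℝ, M.IsSymm ∧ M.det ≠ 0 ∧ ∀ i j k l,
      ∑ b, M i b * single v c b j k l = ∑ b, M j b * single v c b i k l := by
  by_cases h0 : ∀ i j k, c i j k = 0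
  · refine ⟨1, Matrix.isSymm_one, by simp, ?_⟩
    intro i j k l
    rw [sum_single, sum_single, h0, h0]
    ring
  · push Not at h0
    obtain ⟨p, q, r, hpqr⟩ := h0
    rw [h] at hpqr
    have ha : a ≠ 0 := by
      rintro rfl
      exact hpqr (by ring)
    have hwp : w p ≠ 0 := by
      intro h1
      exact hpqr (by rw [h1]; ring)
    have hwv : w v = 0 := by
      have h1 := hv v v
      rw [h] at h1
      by_contra h2
      have : a * w v * w v * w v ≠ 0 := by positivity
      exact this h1
    refine ⟨Matrix.of fun i j => if i = v then w j else if j = v then w i else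
      if i = j then 1 else 0, ?_, ?_, ?_⟩
    · ext i j
      simp only [Matrix.transpose_apply, Matrix.of_apply]
      by_cases hi : i = v <;> by_cases hj : j = v
      · rw [if_pos hj, if_pos hi, hi, hj]
      · rw [if_neg hj, if_pos hi, if_pos hi]
      · rw [if_pos hj, if_neg hi, if_pos hj]
      · rw [if_neg hj, if_neg hi, if_neg hi, if_neg hj]
        simp only [eq_comm]
    · intro hdet
      obtain ⟨y, hy, hy0⟩ := Matrix.exists_mulVec_eq_zero_iff.2 hdet
      apply hy
      have e1 : ∑ j, w j * y j = 0 := by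
        have := congrFun hy0 v
        simpa [Matrix.mulVec, dotProduct] using this
      have e2 : ∀ i, i ≠ v → w i * y v + y i = 0 := by
        intro i hi
        have h1 := congrFun hy0 i
        simp only [Matrix.mulVec, dotProduct, Matrix.of_apply, if_neg hi, Pi.zero_apply] at h1
        have h2 : ∀ j, (if j = v then w i else if i = j then (1 : ℝ) else 0) * y j =
            (if j = v then w i * y v else 0) + (if i = j then y i else 0) := by
          intro j
          by_cases hj : j = v
          · rw [if_pos hj, if_pos hj, if_neg (by rw [hj]; exact hi), hj, add_zero]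
          · rw [if_neg hj, if_neg hj, zero_add]
            by_cases hij : i = j
            · rw [if_pos hij, if_pos hij, one_mul, hij]
            · rw [if_neg hij, if_neg hij, zero_mul]
        rw [Finset.sum_congr rfl (fun j _ => h2 j), Finset.sum_add_distrib,
          Finset.sum_ite_eq', Finset.sum_ite_eq] at h1
        simpa using h1
      have e3 : ∑ j, w j * y j = -(∑ j, w j ^ 2) * y v := by
        rw [← Finset.sum_neg_distrib, Finset.sum_mul]
        refine Finset.sum_congr rfl fun j _ => ?_
        by_cases hj : j = v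
        · rw [hj, hwv]
          ring
        · have := e2 j hj
          have h3 : y j = -(w j * y v) := by linarith
          rw [h3]
          ring
      have e4 : 0 < ∑ j, w j ^ 2 :=
        Finset.sum_pos' (fun j _ => sq_nonneg _) ⟨p, Finset.mem_univ _, by positivity⟩
      have e5 : y v = 0 := by
        rw [e1] at e3
        have : (∑ j, w j ^ 2) * y v = 0 := by linarith
        rcases mul_eq_zero.1 this with h1 | h1
        · exact absurd h1 e4.ne'
        · exact h1
      funext i
      by_cases hi : i = v
      · rw [hi]; exact e5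
      · have := e2 i hi
        rw [e5] at this
        simpa using this
    · intro i j k l
      have hM : ∀ i, (Matrix.of (fun i j => if i = v then w j else if j = v then w i else
          if i = j then (1 : ℝ) else 0)) i v = w i := by
        intro i
        rw [Matrix.of_apply, if_pos rfl]
        by_cases hi : i = v
        · rw [if_pos hi, hi]
        · rw [if_neg hi]
      rw [sum_single, sum_single, hM, hM, h, h]
      ring

/-- the cubic form `x^2 y` in the first two of at least three variables -/
lemma exists_noncube (N : ℕ) (hN : 3 ≤ N) : ∃ (v : Fin N) (c : Fin N → Fin N → Fin N → ℝ),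
    (∀ i j k, c i j k = c j i k ∧ c i j k = c i k j) ∧ (∀ j k, c v j k = 0) ∧
    ¬ ∃ (a : ℝ) (w : Fin N → ℝ), ∀ i j k, c i j k = a * w i * w j * w k := by
  obtain ⟨p, hp⟩ : ∃ p : Fin N → ℝ, p = (fun i : Fin N => if (i : ℕ) = 0 then (1 : ℝ) else 0) :=
    ⟨_, rfl⟩
  obtain ⟨q, hq⟩ : ∃ q : Fin N → ℝ, q = (fun i : Fin N => if (i : ℕ) = 1 then (1 : ℝ) else 0) :=
    ⟨_, rfl⟩
  refine ⟨⟨2, by omega⟩, fun i j k => p i * p j * q k + p i * q j * p k + q i * p j * p k,
    ?_, ?_, ?_⟩
  · intro i j k
    constructor <;> ring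
  · intro j k
    rw [hp, hq]
    simp
  · rintro ⟨a, w, h⟩
    have h1 := h ⟨0, by omega⟩ ⟨0, by omega⟩ ⟨1, by omega⟩
    have h2 := h ⟨0, by omega⟩ ⟨0, by omega⟩ ⟨0, by omega⟩
    rw [hp, hq] at h1 h2
    simp at h1 h2
    rcases h2 with h2 | h2
    · rw [h2] at h1
      simp at h1
    · rw [h2] at h1
      simp at h1

section Two

variable {c : Fin N → Fin N → Fin N → Fin N → ℝ}

/-- the identity (C5) for constant coefficients -/
lemma c5_of (h : Conditions (fun _ _ _ => 0) (constBeta c)) (i x y z v w : Fin N) :
    ∑ s, (c i x s w * c s y z v - c i w v s * c s x y z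
      + c i z y s * c s x v w - c i x v s * c s z y w) = 0 := by
  have h5 := h.c5 i x y z v w
  rw [sigma_zero'] at h5
  unfold constBeta at h5
  have : (C (∑ s, (c i x s w * c s y z v - c i w v s * c s x y z
      + c i z y s * c s x v w - c i x v s * c s z y w)) : MvPolynomial (Fin N) ℝ) = C 0 := by
    rw [C_0, ← h5, map_sum]
    refine Finset.sum_congr rfl fun s _ => ?_
    simp only [C_add, C_sub, C_mul]
  exact C_injective _ _ this

/-- multiplication operators commute -/
lemma comm_of (hc : ∀ b i j k, c b i j k = c b j i k ∧ c b i j k = c b i k j)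
    (h5 : ∀ i x y z v w, ∑ s, (c i x s w * c s y z v - c i w v s * c s x y z
      + c i z y s * c s x v w - c i x v s * c s z y w) = 0) (i x v z y w : Fin N) :
    ∑ s, c i x v s * c s z y w = ∑ s, c i z y s * c s x v w := by
  obtain ⟨T, hT⟩ : ∃ T : Fin N → Fin N → Fin N → Fin N → Fin N → ℝ,
    T = fun a b d e f => ∑ s, c i a b s * c s d e f := ⟨_, rfl⟩
  have s1 : ∀ a b d e f, T a b d e f = T b a d e f := by
    intro a b d e f
    rw [hT]
    exact Finset.sum_congr rfl fun s _ => by rw [(hc i a b s).1]
  have s2 : ∀ a b d e f, T a b d e f = T a b e d f := by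
    intro a b d e f
    rw [hT]
    exact Finset.sum_congr rfl fun s _ => by rw [(hc s d e f).1]
  have s3 : ∀ a b d e f, T a b d e f = T a b d f e := by
    intro a b d e f
    rw [hT]
    exact Finset.sum_congr rfl fun s _ => by rw [(hc s d e f).2]
  have f5 : ∀ x y z v w, T x w y z v - T w v x y z + T z y x v w - T x v z y w = 0 := by
    intro x y z v w
    have := h5 i x y z v w
    rw [Finset.sum_sub_distrib, Finset.sum_add_distrib, Finset.sum_sub_distrib] at this
    rw [hT]
    have e : ∑ s, c i x s w * c s y z v = ∑ s, c i x w s * c s y z v :=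
      Finset.sum_congr rfl fun s _ => by rw [(hc i x s w).2]
    rw [e] at this
    exact this
  have D : ∀ x y z v w, T w v x y z = T z v x y w := by
    intro x y z v w
    have a1 := f5 x y z v w
    have a2 := f5 z w x v y
    have b1 := f5 x y w v z
    have b2 := f5 w z x v y
    have r1 : T z y x v w = T z y w x v := by rw [s2 z y x v w, s3 z y v x w, s2 z y v w x, s3 z y w v x]
    have r2 : T y v z w x = T y v w z x := s2 _ _ _ _ _
    have r3 : T x w z v y = T x w y z v := by rw [s3 x w z v y, s2 x w z y v]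
    have r4 : T z v x w y = T z v x y w := s3 _ _ _ _ _
    have r5 : T x v z y w = T x v w y z := by rw [s2 x v z y w, s3 x v y z w, s2 x v y w z]
    have r6 : T x z y w v = T x z w v y := by rw [s2 x z y w v, s3 x z w y v]
    have r7 : T w y x v z = T w y z x v := by rw [s3 w y x v z, s2 w y x z v]
    have r8 : T w v x z y = T w v x y z := s3 _ _ _ _ _
    linarith
  have e1 : T x v z y w = T z v x y w := by
    have := D z y w v x
    -- T x v z y w = T w v z y x
    have h2 := D x y w v z
    -- T z v x y w = T w v x y z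
    have h3 : T w v z y x = T w v x y z := by
      rw [s2 w v z y x, s3 w v y z x, s2 w v y x z]
    linarith
  have e2 : T z v x y w = T z y x v w := by
    have h1 := D x w v z y
    -- T y z x w v = T v z x w y
    have h2 : T y z x w v = T z y x v w := by rw [s1 y z x w v, s3 z y x w v]
    have h3 : T v z x w y = T z v x y w := by rw [s1 v z x w y, s3 z v x w y]
    linarith
  have h := e1.trans e2
  rw [hT] at h
  exact h

/-- every plane of binary quadratic forms contains a nondegenerate one -/
lemma plane (p q r : ℝ) : ∃ A B D : ℝ, p * A + q * B + r * D = 0 ∧ A * D - B * B ≠ 0 := by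
  by_cases hp : p = 0
  · by_cases hr : r = 0
    · exact ⟨1, 0, 1, by rw [hp, hr]; ring, by norm_num⟩
    · refine ⟨0, r, -q, by rw [hp]; ring, ?_⟩
      have : 0 < r * r := mul_self_pos.2 hr
      intro h
      linarith
  · by_cases hr : r = 0
    · refine ⟨-q, p, 0, by rw [hr]; ring, ?_⟩
      have : 0 < p * p := mul_self_pos.2 hp
      intro h
      linarith
    · refine ⟨-r, 0, p, by ring, ?_⟩
      have : r * p ≠ 0 := mul_ne_zero hr hp
      intro h
      apply this
      linarith

/-- a system with constant coefficients and (C1)-(C5) in dimension at most 2 has a nondegenerate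
invariant form -/
lemma form_le_two {N : ℕ} (hN : N ≤ 2) {c : Fin N → Fin N → Fin N → Fin N → ℝ}
    (hc : ∀ b i j k, c b i j k = c b j i k ∧ c b i j k = c b i k j)
    (hcomm : ∀ i x v z y w, ∑ s, c i x v s * c s z y w = ∑ s, c i z y s * c s x v w) :
    ∃ M : Matrix (Fin N) (Fin N) ℝ, M.IsSymm ∧ M.det ≠ 0 ∧ ∀ i j k l,
      ∑ b, M i b * c b j k l = ∑ b, M j b * c b i k l := by
  interval_cases N
  · exact ⟨1, Matrix.isSymm_one, by simp, fun i => i.elim0⟩
  · refine ⟨1, Matrix.isSymm_one, by simp, fun i j k l => ?_⟩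
    rw [Subsingleton.elim i j]
  · have hs : ∀ b i j k, c b i j k = c b k i j := by
      intro b i j k
      rw [(hc b i j k).2, (hc b i k j).1]
    have x1 : ∀ x v z y, c 0 1 x v * c 1 0 z y = c 0 1 z y * c 1 0 x v := by
      intro x v z y
      have := hcomm 0 x v z y 0
      rw [Fin.sum_univ_two, Fin.sum_univ_two, hs 0 x v 0, hs 0 z y 0, hs 0 x v 1, hs 1 z y 0,
        hs 0 z y 1, hs 1 x v 0] at this
      linarith
    have x2 : ∀ x v z y, c 0 1 x v * (c 1 1 z y - c 0 0 z y) =
        c 0 1 z y * (c 1 1 x v - c 0 0 x v) := by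
      intro x v z y
      have := hcomm 0 x v z y 1
      rw [Fin.sum_univ_two, Fin.sum_univ_two, hs 0 x v 0, hs 0 z y 1, hs 0 x v 1, hs 1 z y 1,
        hs 0 z y 0, hs 1 x v 1] at this
      linarith
    have x3 : ∀ x v z y, c 1 0 x v * (c 1 1 z y - c 0 0 z y) =
        c 1 0 z y * (c 1 1 x v - c 0 0 x v) := by
      intro x v z y
      have := hcomm 1 x v z y 0
      rw [Fin.sum_univ_two, Fin.sum_univ_two, hs 1 x v 0, hs 0 z y 0, hs 1 x v 1, hs 1 z y 0,
        hs 0 x v 0, hs 1 z y 1] at this
      linarith
    obtain ⟨A, B, D, hdet, hrow⟩ : ∃ A B D : ℝ, A * D - B * B ≠ 0 ∧ ∀ k l,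
        c 0 1 k l * A + (c 1 1 k l - c 0 0 k l) * B - c 1 0 k l * D = 0 := by
      by_cases hz : ∃ k l, c 0 1 k l ≠ 0 ∨ c 1 1 k l - c 0 0 k l ≠ 0 ∨ c 1 0 k l ≠ 0
      · obtain ⟨k0, l0, h0⟩ := hz
        obtain ⟨A, B, D, h1, h2⟩ := plane (c 0 1 k0 l0) (c 1 1 k0 l0 - c 0 0 k0 l0) (-c 1 0 k0 l0)
        refine ⟨A, B, D, h2, fun k l => ?_⟩
        have y1 := x1 k0 l0 k l
        have y2 := x2 k0 l0 k l
        have y3 := x3 k0 l0 k l
        rcases h0 with h0 | h0 | h0
        · apply (mul_eq_zero.1 (show c 0 1 k0 l0 * (c 0 1 k l * A +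
            (c 1 1 k l - c 0 0 k l) * B - c 1 0 k l * D) = 0 from ?_)).resolve_left h0
          linear_combination c 0 1 k l * h1 + B * y2 - D * y1
        · apply (mul_eq_zero.1 (show (c 1 1 k0 l0 - c 0 0 k0 l0) * (c 0 1 k l * A +
            (c 1 1 k l - c 0 0 k l) * B - c 1 0 k l * D) = 0 from ?_)).resolve_left h0
          linear_combination (c 1 1 k l - c 0 0 k l) * h1 - A * y2 + D * y3
        · apply (mul_eq_zero.1 (show c 1 0 k0 l0 * (c 0 1 k l * A +
            (c 1 1 k l - c 0 0 k l) * B - c 1 0 k l * D) = 0 from ?_)).resolve_left h0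
          linear_combination c 1 0 k l * h1 + B * y3 - A * y1
      · push Not at hz
        refine ⟨1, 0, 1, by norm_num, fun k l => ?_⟩
        obtain ⟨h1, h2, h3⟩ := hz k l
        rw [h1, h2, h3]
        ring
    refine ⟨!![A, B; B, D], ?_, ?_, ?_⟩
    · ext i j
      fin_cases i <;> fin_cases j <;> simp
    · rw [Matrix.det_fin_two_of]
      exact hdet
    · intro i j k l
      have h := hrow k l
      fin_cases i <;> fin_cases j
      · rfl
      · simp [Fin.sum_univ_two]
        linarith
      · simp [Fin.sum_univ_two]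
        linarith
      · rfl

end Two

end Pool.Agent.Y594.CF.Forms
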